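import Pool.Agent.Helper76.Z21

set_option autoImplicit false

open Metric

namespace Pool.Agent.Results.MP_51b9c2_an.Zorboska

/-- Admissible weights: a sequence of positive reals with `liminf β_n^{1/n} ≥ 1`. -/
def IsWeight (β : ℕ → ℝ) : Prop :=
  (∀ n, 0 < β n) ∧
    1 ≤ Filter.liminf (fun n : ℕ => ENNReal.ofReal (β n) ^ (1 / (n : ℝ))) Filter.atTop

/-- `f(z) = ∑ a_n z^n` on the open unit disc, with `∑ |a_n|² β_n < ∞`
(so `f` belongs to `H²(β)` and `‖f‖² = ∑ |a_n|² β_n`). -/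
def HasCoeffs (β : ℕ → ℝ) (f : ℂ → ℂ) (a : ℕ → ℂ) : Prop :=
  Summable (fun n => ‖a n‖ ^ 2 * β n) ∧
    ∀ z ∈ ball (0 : ℂ) 1, HasSum (fun n => a n * z ^ n) (f z)

/-- `f ∈ H²(β)`. -/
def MemH2 (β : ℕ → ℝ) (f : ℂ → ℂ) : Prop := ∃ a, HasCoeffs β f a

/-- Symbols: non-constant analytic self-maps of the open unit disc. -/
def IsSymbol (φ : ℂ → ℂ) : Prop :=
  DifferentiableOn ℂ φ (ball 0 1) ∧ Set.MapsTo φ (ball 0 1) (ball 0 1) ∧
    ∃ z ∈ ball (0 : ℂ) 1, ∃ w ∈ ball (0 : ℂ) 1, φ z ≠ φ w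

/-- `f ↦ f ∘ φ` is a bounded operator from `H²(β)` to `H²(β)`: there is a constant `C` such that
for every `f ∈ H²(β)` the function `f ∘ φ` is in `H²(β)` and `‖f ∘ φ‖² ≤ C² ‖f‖²`. -/
def BoundedComp (β : ℕ → ℝ) (φ : ℂ → ℂ) : Prop :=
  ∃ C : ℝ, ∀ (f : ℂ → ℂ) (a : ℕ → ℂ), HasCoeffs β f a →
    ∃ b : ℕ → ℂ, HasCoeffs β (f ∘ φ) b ∧
      ∑' n, ‖b n‖ ^ 2 * β n ≤ C ^ 2 * ∑' n, ‖a n‖ ^ 2 * β n

/-- Property (Z): every symbol that belongs to `H²(β)` induces a bounded composition operator. -/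
def PropertyZ (β : ℕ → ℝ) : Prop :=
  ∀ φ : ℂ → ℂ, IsSymbol φ → MemH2 β φ → BoundedComp β φ

/-- Slowly oscillating weights. -/
def SlowlyOscillating (β : ℕ → ℝ) : Prop :=
  ∃ c C : ℝ, 0 < c ∧ c < 1 ∧ 1 < C ∧
    ∀ n m : ℕ, (n : ℝ) / 2 ≤ m → (m : ℝ) ≤ 2 * n → c * β n ≤ β m ∧ β m ≤ C * β n

/-- Essentially decreasing weights. -/
def EssentiallyDecreasing (β : ℕ → ℝ) : Prop :=
  ∃ C : ℝ, 1 ≤ C ∧ ∀ n m : ℕ, n ≤ m → β m ≤ C * β n

open Pool.Agent.Helper76.Zp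

lemma so_iff (β : ℕ → ℝ) : SlowlyOscillating β ↔ SO β := by
  constructor
  · rintro ⟨c, C, h1, h2, h3, h4⟩
    refine ⟨c, C, h1, h2, h3, fun n m hnm hmn => h4 n m ?_ ?_⟩
    · have : (n : ℝ) ≤ 2 * m := by exact_mod_cast hnm
      linarith
    · exact_mod_cast hmn
  · rintro ⟨c, C, h1, h2, h3, h4⟩
    refine ⟨c, C, h1, h2, h3, fun n m hnm hmn => h4 n m ?_ ?_⟩
    · have : (n : ℝ) ≤ 2 * m := by linarith
      exact_mod_cast this
    · exact_mod_cast hmn

lemma low_of_weight {β : ℕ → ℝ} (h : IsWeight β) (r : ℝ) (hr0 : 0 < r) (hr1 : r < 1) :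
    ∃ c : ℝ, 0 < c ∧ ∀ n, c * r ^ n ≤ β n := by
  obtain ⟨hβ, hl⟩ := h
  have h1 : ENNReal.ofReal r < Filter.liminf (fun n : ℕ => ENNReal.ofReal (β n) ^ (1 / (n : ℝ))) Filter.atTop := by
    refine lt_of_lt_of_le ?_ hl
    rw [ENNReal.ofReal_lt_one]
    exact hr1
  have h2 := Filter.eventually_lt_of_lt_liminf h1
  rw [Filter.eventually_atTop] at h2
  obtain ⟨N, hN⟩ := h2
  have h3 : ∀ n, N + 1 ≤ n → r ^ n ≤ β n := by
    intro n hn
    have h4 := hN n (by omega)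
    have hn0 : (0 : ℝ) < n := by
      have : 0 < n := by omega
      exact_mod_cast this
    have h5 : ENNReal.ofReal r ^ (n : ℝ) ≤ (ENNReal.ofReal (β n) ^ (1 / (n : ℝ))) ^ (n : ℝ) :=
      ENNReal.rpow_le_rpow h4.le hn0.le
    rw [← ENNReal.rpow_mul, one_div, inv_mul_cancel₀ hn0.ne', ENNReal.rpow_one, ENNReal.rpow_natCast,
      ← ENNReal.ofReal_pow hr0.le] at h5
    exact (ENNReal.ofReal_le_ofReal_iff (hβ n).le).mp h5
  set S := ∑ i ∈ Finset.range (N + 1), (β i)⁻¹ with hS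
  have hS0 : 0 ≤ S := Finset.sum_nonneg (fun i _ => (inv_pos.mpr (hβ i)).le)
  refine ⟨(1 + S)⁻¹, by positivity, fun n => ?_⟩
  rw [inv_mul_le_iff₀ (by positivity)]
  have hbn := hβ n
  by_cases hn : n < N + 1
  · have h6 : (β n)⁻¹ ≤ S :=
      Finset.single_le_sum (f := fun i => (β i)⁻¹) (fun i _ => (inv_pos.mpr (hβ i)).le) (Finset.mem_range.mpr hn)
    have h7 : r ^ n ≤ 1 := pow_le_one₀ hr0.le hr1.le
    calc r ^ n ≤ (β n)⁻¹ * β n := by rw [inv_mul_cancel₀ hbn.ne']; exact h7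
      _ ≤ (1 + S) * β n := by
          apply mul_le_mul_of_nonneg_right _ hbn.le
          linarith
  · push Not at hn
    have h8 := h3 n hn
    nlinarith

lemma hasCoeffs_of {β : ℕ → ℝ} (h : IsWeight β) (a : ℕ → ℂ) (ha : Summable (fun n => ‖a n‖ ^ 2 * β n)) :
    HasCoeffs β (fun z => ∑' n, a n * z ^ n) a := by
  refine ⟨ha, fun z hz => ?_⟩
  rw [mem_ball_zero_iff] at hz
  have h1 := a_le h.1 (low_of_weight h) a ha ‖z‖ (norm_nonneg z) hz
  apply Summable.hasSum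
  apply Summable.of_norm_bounded h1
  intro n
  rw [norm_mul, norm_pow]

lemma pz_of_propertyZ {β : ℕ → ℝ} (h : IsWeight β) (hZ : PropertyZ β) : PZ β := by
  intro Φ φ hR hm hnc hs
  have hsym : IsSymbol φ := by
    refine ⟨?_, ?_, ?_⟩
    · have hp : HasFPowerSeriesOnBall φ (FormalMultilinearSeries.ofScalars ℂ (fun n => PowerSeries.coeff n Φ)) 0 1 := by
        refine ⟨?_, by norm_num, ?_⟩
        · apply ENNReal.le_of_forall_nnreal_lt
          intro r hr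
          have hr1 : (r : ℝ) < 1 := by exact_mod_cast hr
          have hsr := hR.summable_r r r.2 hr1
          apply FormalMultilinearSeries.le_radius_of_summable
          refine hsr.of_nonneg_of_le (fun n => by positivity) (fun n => ?_)
          apply mul_le_mul_of_nonneg_right _ (by positivity)
          exact (FormalMultilinearSeries.ofScalars_norm ℂ (fun n => PowerSeries.coeff n Φ) n).le
        · intro y hy
          rw [Metric.mem_eball, edist_zero_right] at hy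
          have hy1 : ‖y‖ < 1 := by
            have : ‖y‖ₑ < 1 := hy
            rw [← ofReal_norm] at this
            exact ENNReal.ofReal_lt_one.mp this
          have := hR y hy1
          rw [zero_add, FormalMultilinearSeries.ofScalars_apply_eq']
          simpa using this
      have := hp.differentiableOn
      rw [show Metric.eball (0 : ℂ) 1 = ball (0 : ℂ) 1 by
        rw [← ENNReal.ofReal_one, Metric.eball_ofReal]] at this
      exact this
    · intro z hz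
      rw [mem_ball_zero_iff] at hz ⊢
      exact hm z hz
    · obtain ⟨z, w, hz, hw, hne⟩ := hnc
      exact ⟨z, mem_ball_zero_iff.mpr hz, w, mem_ball_zero_iff.mpr hw, hne⟩
  have hmem : MemH2 β φ := ⟨fun n => PowerSeries.coeff n Φ, hs, fun z hz => hR z (mem_ball_zero_iff.mp hz)⟩
  obtain ⟨C, hC⟩ := hZ φ hsym hmem
  refine ⟨C ^ 2, bd_of_compM h.1 hR (C ^ 2) ?_⟩
  intro a ha
  obtain ⟨b, hb1, hb2⟩ := hC _ a (hasCoeffs_of h a ha)
  exact ⟨b, hb1.1, fun z hz => hb1.2 z (mem_ball_zero_iff.mpr hz), hb2⟩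

/-- Answer to Zorboska's question. -/
theorem result (β : ℕ → ℝ) (hβ : IsWeight β) :
    PropertyZ β ↔ SlowlyOscillating β ∧
      (EssentiallyDecreasing β ∨ Summable (fun n : ℕ => (n : ℝ) ^ 2 / β n)) := by
  have hlow := low_of_weight hβ
  constructor
  · intro hZ
    have hPZ := pz_of_propertyZ hβ hZ
    have hSO := nec_SO hβ.1 hlow hPZ
    refine ⟨(so_iff β).mpr hSO, ?_⟩
    obtain ⟨C, hC, h1⟩ := nec2 hβ.1 hPZ hSO
    rcases dichot hβ.1 C hC h1 with h2 | ⟨c, hc, h2⟩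
    · exact Or.inl h2
    · right
      apply nec3 hβ.1 hPZ
      have h3 : Summable (fun n : ℕ => c⁻¹ * (1 / (n : ℝ) ^ 2)) :=
        (Real.summable_one_div_nat_pow.mpr (by norm_num)).mul_left _
      have h4 : Summable (fun n : ℕ => (β (n + 1))⁻¹) := by
        apply Summable.of_nonneg_of_le (fun n => (inv_pos.mpr (hβ.1 (n + 1))).le) _ ((summable_nat_add_iff 1).mpr h3)
        intro n
        have h5 := h2 (n + 1) (by omega)
        have h6 : 0 < c * ((n + 1 : ℕ) : ℝ) ^ 2 := by positivity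
        calc (β (n + 1))⁻¹ ≤ (c * ((n + 1 : ℕ) : ℝ) ^ 2)⁻¹ := inv_anti₀ h6 h5
          _ = c⁻¹ * (1 / ((n + 1 : ℕ) : ℝ) ^ 2) := by rw [mul_inv, one_div]
      exact (summable_nat_add_iff 1).mp h4
  · rintro ⟨hSO, h⟩
    rw [so_iff] at hSO
    intro φ hφ hmem
    obtain ⟨a, ha1, ha2⟩ := hmem
    have hR : Rep (PowerSeries.mk a) φ := by
      intro z hz
      have := ha2 z (mem_ball_zero_iff.mpr hz)
      simpa using this
    have hm : ∀ z : ℂ, ‖z‖ < 1 → ‖φ z‖ < 1 := by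
      intro z hz
      exact mem_ball_zero_iff.mp (hφ.2.1 (mem_ball_zero_iff.mpr hz))
    obtain ⟨M, hM⟩ : ∃ M, Bd β (PowerSeries.mk a) M := by
      rcases h with h | h
      · exact suff_ED hSO hβ.1 h hR hm
      · exact suff_C1 hSO hβ.1 h hR hm (by simpa using ha1)
    have hcomp := compM_of_bd hβ.1 hlow hR hm M hM
    have hM0 : 0 ≤ M := by
      have := hM.one_le hβ.1
      linarith
    refine ⟨Real.sqrt M, fun f c hf => ?_⟩
    obtain ⟨b, hb1, hb2, hb3⟩ := hcomp c hf.1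
    refine ⟨b, ⟨hb1, fun z hz => ?_⟩, ?_⟩
    · have h1 := hb2 z (mem_ball_zero_iff.mp hz)
      have h2 := hf.2 (φ z) (hφ.2.1 hz)
      rw [h2.tsum_eq] at h1
      exact h1
    · rw [Real.sq_sqrt hM0]
      exact hb3

end Pool.Agent.Results.MP_51b9c2_an.Zorboska
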